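import Pool.Agent.X48.KyFan

/-!
# MP_30f82a_an: a Ky Fan norm bound for a partial trace of Hermitian tensors

`‖L(A,B)‖_(k) ≤ 2 ∑_{i ≤ k} σ_i(A) σ_i(R(B))` fails for `n = k = 15`, with the real symmetric
matrices `A = I - 2 w wᵀ`, `w = (4/5) e₁ + (3/5) e₂`, and `B = e₀ e₀ᵀ - e₁ e₁ᵀ`:
the left side is at least `7552/125 > 60` and the right side is at most `60`.
-/

set_option autoImplicit false

open Finset Matrix Pool.Agent.X48.KyFan

namespace Pool.Agent.Results.MP_30f82a_an.FailsAtFifteen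

/-- There are Hermitian matrices `A`, `B` of size `15` with
`‖L(A,B)‖_(15) ≥ 7552/125 > 60 ≥ 2 ∑_{i ≤ 15} σ_i(A) σ_i(R(B))`; the inequality of the problem is
false. -/
theorem result :
    (∃ A B : Matrix (Fin 15) (Fin 15) ℂ, A.IsHermitian ∧ B.IsHermitian ∧
      2 * ∑ i ∈ range 15, sv A i * sv (R B) i ≤ 60 ∧ 7552 / 125 ≤ kyFan 15 (L A B)) ∧
    ¬ ∀ (n : ℕ) (A B : Matrix (Fin n) (Fin n) ℂ), A.IsHermitian → B.IsHermitian →
      ∀ k, 1 ≤ k → k ≤ n → kyFan k (L A B) ≤ 2 * ∑ i ∈ range k, sv A i * sv (R B) i := by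
  have key : 2 * ∑ i ∈ range 15, sv (toC Aq) i * sv (R (toC Bq)) i ≤ 60 := by
    have h1 : ∑ i ∈ range 15, sv (toC Aq) i * sv (R (toC Bq)) i ≤ kyFan 15 (R (toC Bq)) := by
      unfold kyFan
      apply Finset.sum_le_sum
      intro i hi
      have h2 := sv_A i (Finset.mem_range.1 hi)
      have h3 : 0 ≤ sv (R (toC Bq)) i := LinearMap.singularValues_nonneg _ _
      nlinarith
    rw [R_sum] at h1
    linarith
  refine ⟨⟨toC Aq, toC Bq, A_herm, B_herm, key, L_big⟩, fun h => ?_⟩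
  have h1 := h 15 (toC Aq) (toC Bq) A_herm B_herm 15 (by norm_num) le_rfl
  have h2 := L_big
  norm_num at h2
  linarith

end Pool.Agent.Results.MP_30f82a_an.FailsAtFifteen
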